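import Pool.Agent.V11313.CT.Curve
import Pool.Agent.Y249.AC.Int
set_option autoImplicit false

/-!
# The integral bound for boxes which meet a curve of finite order
-/

open MeasureTheory Set Metric
open scoped ENNReal NNReal

namespace Pool.Agent.V11313.CT
open Pool.Agent.H810R3.Tub Pool.Agent.W772 Pool.Agent.W193.AC
open Pool.Agent.Results.MP_5168f5_an.TubesMeetingCurve (OrderLE)

variable {d : ℕ}

/-- The curve `γ` is of order at most `M`. -/
def Ord (M : ℕ) (γ : ℝ → Space d) : Prop :=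
  ∀ ν : Space d, ν ≠ 0 → ∀ᵐ c : ℝ, {u : ℝ | inner ℝ ν (γ u) = c}.encard ≤ M

theorem ae_scale {R : ℝ} (hR : R ≠ 0) {P : ℝ → Prop} (h : ∀ᵐ c : ℝ, P c) : ∀ᵐ c : ℝ, P (R * c) := by
  rw [ae_iff] at h ⊢
  have h1 : {c : ℝ | ¬ P (R * c)} = (fun c : ℝ => R • c) ⁻¹' {c : ℝ | ¬ P c} := rfl
  rw [h1, Measure.addHaar_preimage_smul _ hR, h, mul_zero]

/-- The scaled curve in coordinates. -/
theorem ord_scale {M : ℕ} {γ : ℝ → Space d} (h : Ord M γ) {R : ℝ} (hR : 0 < R) :
    OrderLE M (fun u => iso d (R⁻¹ • γ u)) := by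
  intro ν hν
  set ν' : Space d := (iso d).symm ν with hν'
  have hν0 : ν' ≠ 0 := by
    intro h0
    apply hν
    have : (iso d) ν' = ν := (iso d).apply_symm_apply ν
    rw [← this, h0, map_zero]
  have h1 := ae_scale hR.ne' (h ν' hν0)
  filter_upwards [h1] with c hc
  have e1 : {u : ℝ | inner ℝ ν (iso d (R⁻¹ • γ u)) = c} = {u : ℝ | inner ℝ ν' (γ u) = R * c} := by
    ext u
    simp only [mem_ofPred_eq]
    have e2 : (inner ℝ ν (iso d (R⁻¹ • γ u)) : ℝ) = R⁻¹ * inner ℝ ν' (γ u) := by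
      have e3 : ν = iso d ν' := ((iso d).apply_symm_apply ν).symm
      rw [e3, LinearIsometryEquiv.inner_map_map, inner_smul_right]
    rw [e2, inv_mul_eq_iff_eq_mul₀ hR.ne']
  rw [e1]
  exact hc

/-- The box with centre `a` enlarged by the factor `2 A` contains the point `z`. -/
def NearBox (A N : ℝ) (e : Space d) (f : Fin d → Space d) (a z : Space d) : Prop :=
  |inner ℝ e (z - a)| ≤ A * N ^ 2 ∧ ∀ j, |inner ℝ (f j) (z - a)| ≤ A * N

theorem perp_le {N A : ℝ} (hN : 0 ≤ N) (hA : 0 ≤ A) {e : Space d} {f : Fin d → Space d}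
    (h : Orthonormal ℝ (Fin.cons e f : Fin (d + 1) → Space d)) {w : Space d}
    (hw : ∀ j, |(inner ℝ (f j) w : ℝ)| ≤ A * N) :
    ‖w - (inner ℝ w e : ℝ) • e‖ ≤ (d : ℝ) * (A * N) := by
  have he := norm_e h
  have h1 : ‖w - (inner ℝ w e : ℝ) • e‖ ^ 2 = ∑ j, (inner ℝ (f j) w) ^ 2 := by
    rw [real_inner_comm e w]
    have e1 : ‖w - (inner ℝ e w : ℝ) • e‖ ^ 2 = ‖w‖ ^ 2 - (inner ℝ e w) ^ 2 := by
      rw [@norm_sub_sq_real, norm_smul, inner_smul_right, real_inner_comm e w, he,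
        Real.norm_eq_abs, mul_one, sq_abs]
      ring
    rw [e1, norm_sq_frame h w]
    ring
  have h2 : ∑ j, (inner ℝ (f j) w) ^ 2 ≤ ∑ _j : Fin d, (A * N) ^ 2 := by
    refine Finset.sum_le_sum fun j _ => ?_
    rw [← sq_abs]
    exact pow_le_pow_left₀ (abs_nonneg _) (hw j) 2
  rw [Finset.sum_const, Finset.card_univ, Fintype.card_fin, nsmul_eq_mul] at h2
  apply le_of_sq_le_sq _ (by positivity)
  rw [h1]
  refine h2.trans ?_
  rcases Nat.eq_zero_or_pos d with h0 | h0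
  · subst h0; simp
  · have hd1 : (1 : ℝ) ≤ d := by exact_mod_cast h0
    have : (d : ℝ) ≤ (d : ℝ) ^ 2 := by nlinarith
    rw [mul_pow (d : ℝ)]
    exact mul_le_mul_of_nonneg_right this (by positivity)

/-- A point near the box is near the cylinders which cover the box. -/
theorem near_of_box {N A σ : ℝ} (hN : 1 ≤ N) (hA : 0 ≤ A) (hσ : 0 < σ) {m : ℕ} (hm : 1 ≤ m)
    {e : Space d} {f : Fin d → Space d}
    (h : Orthonormal ℝ (Fin.cons e f : Fin (d + 1) → Space d)) {a z : Space d}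
    (hz : NearBox A N e f a z) (k : Fin d → Fin (m + 1)) :
    Near (A + 4 * d * (A + 1) / σ) (σ / 4 / N) (iso d ((N ^ 2)⁻¹ • (a + off N m f k))) (iso d e)
      (iso d ((N ^ 2)⁻¹ • z)) := by
  have hN0 : 0 < N := by linarith
  have hm0 : (0 : ℝ) < m := by exact_mod_cast hm
  have hN2 : 0 < N ^ 2 := by positivity
  set c : Space d := a + off N m f k with hc
  have h0 : iso d ((N ^ 2)⁻¹ • z) - iso d ((N ^ 2)⁻¹ • c) = iso d ((N ^ 2)⁻¹ • (z - c)) := by
    rw [← map_sub, ← smul_sub]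
  unfold Near
  rw [h0, LinearIsometryEquiv.inner_map_map]
  have h1 : (inner ℝ ((N ^ 2)⁻¹ • (z - c)) e : ℝ) = (N ^ 2)⁻¹ * inner ℝ (z - c) e := by
    rw [inner_smul_left]; simp
  have h2 : iso d ((N ^ 2)⁻¹ • (z - c)) - ((N ^ 2)⁻¹ * (inner ℝ (z - c) e : ℝ)) • iso d e =
      iso d ((N ^ 2)⁻¹ • ((z - c) - (inner ℝ (z - c) e : ℝ) • e)) := by
    rw [← map_smul, ← map_sub, smul_sub ((N ^ 2)⁻¹) (z - c), smul_smul]
  rw [h1, h2, LinearIsometryEquiv.norm_map, norm_smul, Real.norm_eq_abs, abs_mul,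
    abs_of_pos (by positivity : 0 < (N ^ 2)⁻¹)]
  have hw : ∀ j, |(inner ℝ (f j) (z - c) : ℝ)| ≤ (A + 1) * N := by
    intro j
    have e1 : z - c = (z - a) - off N m f k := by rw [hc]; abel
    rw [e1, inner_sub_right, inner_off h]
    have h3 := hz.2 j
    have h4 : |(-(N / 2) + ((k j : ℕ) : ℝ) * (N / m))| ≤ N / 2 := by
      have h5 : ((k j : ℕ) : ℝ) ≤ m := by
        have := (k j).is_lt
        have h6 : (k j : ℕ) ≤ m := by omega
        exact_mod_cast h6
      have h6 : ((k j : ℕ) : ℝ) * (N / m) ≤ N := by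
        calc ((k j : ℕ) : ℝ) * (N / m) ≤ m * (N / m) := by gcongr
          _ = N := by field_simp
      have h7 : 0 ≤ ((k j : ℕ) : ℝ) * (N / m) := by positivity
      rw [abs_le]
      constructor <;> linarith
    refine (abs_sub _ _).trans ?_
    linarith
  have he : (inner ℝ (z - c) e : ℝ) = inner ℝ e (z - a) := by
    have e1 : z - c = (z - a) - off N m f k := by rw [hc]; abel
    rw [e1, real_inner_comm, inner_sub_right, inner_e_off h, sub_zero]
  have hd0 : (0 : ℝ) ≤ d := Nat.cast_nonneg d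
  have hX : 0 ≤ 4 * d * (A + 1) / σ := by positivity
  constructor
  · rw [inv_mul_le_iff₀ hN2, he]
    have h3 := hz.1
    nlinarith
  · have h3 := perp_le (N := N) (A := A + 1) hN0.le (by linarith) h hw
    rw [inv_mul_le_iff₀ hN2]
    refine h3.trans ?_
    have e1 : N ^ 2 * ((A + 4 * d * (A + 1) / σ) * (σ / 4 / N)) =
        (A * σ / 4) * N + d * ((A + 1) * N) := by
      field_simp
    rw [e1]
    have : 0 ≤ (A * σ / 4) * N := by positivity
    linarith

/-- The number of the caps. -/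
theorem card_caps {N σ : ℝ} (hd : 1 ≤ d) (hN : 1 ≤ N) (hσ : 0 < σ) (hσ1 : σ ≤ 1) {ι : Type}
    [Fintype ι] (ω : ι → Vec d) (hω : ∀ i, ‖ω i‖ ≤ 1) (hsep : ∀ i j, i ≠ j → σ / N ≤ ‖ω i - ω j‖) :
    (Fintype.card ι : ℝ) ≤ (4 * d / σ) ^ d * N ^ d := by
  have hd0 : (0 : ℝ) < d := by exact_mod_cast hd
  have hd1 : (1 : ℝ) ≤ d := by exact_mod_cast hd
  have hN0 : 0 < N := by linarith
  set δ' : ℝ := σ / N / d with hδ'
  have hδ'0 : 0 < δ' := by positivity
  set v : ι → Fin d → ℝ := fun i k => ω i k with hv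
  have hs : Pool.Agent.Y254.EL.Sep δ' v := by
    intro i j hij
    have h2 := hsep i j hij
    have h1 : ‖ω i - ω j‖ ≤ (d : ℝ) * ‖v i - v j‖ := by
      rw [EuclideanSpace.norm_eq]
      have h3 : ∑ k, ‖(ω i - ω j) k‖ ^ 2 ≤ (d * ‖v i - v j‖) ^ 2 := by
        calc ∑ k, ‖(ω i - ω j) k‖ ^ 2 ≤ ∑ _k : Fin d, ‖v i - v j‖ ^ 2 := by
              apply Finset.sum_le_sum
              intro k _
              have := norm_le_pi_norm (v i - v j) k
              exact pow_le_pow_left₀ (norm_nonneg _) this 2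
          _ = d * ‖v i - v j‖ ^ 2 := by simp
          _ ≤ (d * ‖v i - v j‖) ^ 2 := by
              rw [mul_pow]
              have : (d : ℝ) ≤ (d : ℝ) ^ 2 := by nlinarith
              exact mul_le_mul_of_nonneg_right this (by positivity)
      calc √(∑ k, ‖(ω i - ω j) k‖ ^ 2) ≤ √((d * ‖v i - v j‖) ^ 2) := Real.sqrt_le_sqrt h3
        _ = d * ‖v i - v j‖ := Real.sqrt_sq (by positivity)
    rw [hδ', div_le_iff₀ hd0]
    linarith
  have h1 := Pool.Agent.Y254.EL.card_ball hδ'0 (ϱ := 1) zero_le_one hs 0 Finset.univ (by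
    intro i _
    rw [sub_zero, pi_norm_le_iff_of_nonneg zero_le_one]
    intro k
    have := PiLp.norm_apply_le (ω i) k
    exact this.trans (hω i))
  rw [Finset.card_univ] at h1
  refine h1.trans ?_
  rw [← mul_pow]
  gcongr
  have e1 : 2 * 1 / δ' = 2 * d / σ * N := by rw [hδ']; field_simp
  rw [e1]
  have e2 : 2 ≤ 2 * d / σ * N := by
    have : 1 ≤ d / σ := by rw [le_div_iff₀ hσ]; linarith
    have e3 : 2 * d / σ * N = 2 * (d / σ) * N := by ring
    rw [e3]
    nlinarith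
  have e3 : 4 * d / σ * N = 2 * d / σ * N + 2 * d / σ * N := by ring
  rw [e3]
  linarith

/-- The integral bound. -/
theorem curve_int (hd : 2 ≤ d) {σ A : ℝ} (hσ : 0 < σ) (hσ1 : σ ≤ 1) (hA : 0 ≤ A) :
    ∃ E : ℝ, 0 < E ∧ ∀ (M : ℕ) (γ : ℝ → Space d), Continuous γ → Ord M γ →
      ∀ (N : ℝ), 1 ≤ N → ∀ (ι : Type) [Fintype ι] (ω : ι → Vec d) (f : ι → Fin d → Space d)
      (a : ι → Space d), (∀ i, ‖ω i‖ ≤ 1) → (∀ i j, i ≠ j → σ / N ≤ ‖ω i - ω j‖) →
      (∀ i, Orthonormal ℝ (Fin.cons (nor (ω i)) (f i) : Fin (d + 1) → Space d)) →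
      (∀ i, ∃ u, NearBox A N (nor (ω i)) (f i) (a i) (γ u)) →
      ∫⁻ y, Fb N ω f a y ^ (1 + 1 / (d : ℝ)) ≤
        ENNReal.ofReal (E * (((M + 1) * (1 + Real.log (M + 1)) ^ 2 *
          (1 + Real.log N) ^ (d + 3)) ^ (1 / (d : ℝ))) * N ^ (2 * (d + 1))) := by
  have hd0 : (0 : ℝ) < d := by exact_mod_cast (by omega : 0 < d)
  have hp0 : 0 < 1 / (d : ℝ) := by positivity
  set q : ℝ := 1 + 1 / (d : ℝ) with hq
  have hq1 : 1 ≤ q := by
    rw [hq]; linarith
  set A' : ℝ := 1 + (A + 4 * d * (A + 1) / σ) with hA'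
  have hA'1 : 1 ≤ A' := by
    have : 0 ≤ A + 4 * d * (A + 1) / σ := by positivity
    rw [hA']; linarith
  obtain ⟨C, hC, hT⟩ := curve_end hd hA'1
  set m : ℕ := ⌈4 * (d : ℝ) / σ⌉₊ with hm
  have hm1 : 1 ≤ m := Nat.one_le_ceil_iff.2 (by positivity)
  have hm0 : (0 : ℝ) < m := by exact_mod_cast hm1
  have hmle : 4 * (d : ℝ) / σ ≤ m := Nat.le_ceil _
  set K : ℝ := ((Fintype.card (Fin d → Fin (m + 1)) : ℕ) : ℝ) with hK
  have hK0 : 0 < K := by
    rw [hK]
    exact_mod_cast Fintype.card_pos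
  set lg : ℝ := 1 + Real.log (4 / σ) with hlg
  have hlg1 : 1 ≤ lg := by
    have : 0 ≤ Real.log (4 / σ) := Real.log_nonneg (by rw [le_div_iff₀ hσ]; linarith)
    rw [hlg]; linarith
  have hlg0 : 0 < lg := by linarith
  refine ⟨K ^ (q - 1) * (K * ((C * lg ^ (d + 3)) ^ (1 / (d : ℝ)) *
    ((σ / 4) ^ d * (4 * d / σ) ^ d))), by positivity, ?_⟩
  intro M γ hγ hord N hN ι _ ω f a hω hsep hf hnear
  have hN0 : 0 < N := by linarith
  set δ : ℝ := σ / 4 / N with hδ
  have hδ0 : 0 < δ := by positivity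
  have hδ1 : δ < 1 := by
    rw [hδ, div_lt_one hN0]
    linarith
  have hmd : (d : ℝ) * (N / m) ≤ δ * N ^ 2 := by
    have e1 : δ * N ^ 2 = σ / 4 * N := by
      rw [hδ]; field_simp
    have e2 : (d : ℝ) * (N / m) = (d : ℝ) / m * N := by ring
    rw [e1, e2]
    apply mul_le_mul_of_nonneg_right _ hN0.le
    rw [div_le_iff₀ hm0]
    rw [div_le_iff₀ hσ] at hmle
    linarith
  set Fk : (Fin d → Fin (m + 1)) → Space d → ℝ≥0∞ := fun k y =>
    ∑ i, (cyl (N ^ 2) δ (a i + off N m (f i) k) (nor (ω i))).indicator (fun _ => (1 : ℝ≥0∞)) y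
    with hFk
  have h1 : ∀ y, Fb N ω f a y ≤ ∑ k, Fk k y := by
    intro y
    simp only [hFk]
    rw [Finset.sum_comm]
    unfold Fb
    refine Finset.sum_le_sum fun i _ => ?_
    by_cases hy : y ∈ box N (nor (ω i)) (f i) (a i)
    · obtain ⟨k, hk⟩ := cover hN hm1 hmd (hf i) hy
      rw [indicator_of_mem hy]
      calc (1 : ℝ≥0∞) = (cyl (N ^ 2) δ (a i + off N m (f i) k) (nor (ω i))).indicator
            (fun _ => (1 : ℝ≥0∞)) y := by rw [indicator_of_mem hk]
        _ ≤ _ := Finset.single_le_sum (f := fun k => (cyl (N ^ 2) δ (a i + off N m (f i) k)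
            (nor (ω i))).indicator (fun _ => (1 : ℝ≥0∞)) y) (fun _ _ => zero_le)
            (Finset.mem_univ k)
    · rw [indicator_of_notMem hy]
      exact zero_le
  set n : ℝ := (Fintype.card ι : ℝ) with hn
  set B : ℝ≥0∞ := ENNReal.ofReal ((C * W d M δ) ^ (1 / (d : ℝ)) * (δ ^ d * n)) with hB
  have hΓ : Continuous (fun u => iso d ((N ^ 2)⁻¹ • γ u)) :=
    (iso d).continuous.comp (by fun_prop : Continuous fun u => (N ^ 2)⁻¹ • γ u)
  have h2 : ∀ k, ∫⁻ y, Fk k y ^ q ≤ ENNReal.ofReal ((N ^ 2) ^ (d + 1)) * B := by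
    intro k
    refine cyl_int (by positivity) _ _ ?_
    refine hT M _ hΓ (ord_scale hord (by positivity)) δ hδ0 hδ1 ι _ _ ?_ ?_ ?_
    · intro i
      rw [LinearIsometryEquiv.norm_map]
      exact norm_e (hf i)
    · intro i j hij
      rw [← map_sub, LinearIsometryEquiv.norm_map]
      have h3 := nor_sep (ω i) (ω j) (hω i) (hω j)
      have h4 := hsep i j hij
      have h5 : δ = σ / N / 4 := by rw [hδ]; ring
      rw [h5]
      linarith
    · intro i
      obtain ⟨u, hu⟩ := hnear i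
      obtain ⟨h3, h4⟩ := near_of_box hN hA hσ hm1 (hf i) hu k
      refine ⟨u, h3.trans (by rw [hA']; linarith), h4.trans ?_⟩
      exact mul_le_mul_of_nonneg_right (by rw [hA']; linarith) hδ0.le
  have hFkm : ∀ k, Measurable (fun y => Fk k y ^ q) := by
    intro k
    refine Measurable.pow_const ?_ q
    apply Finset.measurable_fun_sum
    intro i _
    refine measurable_const.indicator ?_
    have g1 : Continuous (fun y : Space d =>
      |inner ℝ (y - (a i + off N m (f i) k)) (nor (ω i))|) := by fun_prop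
    have g2 : Continuous (fun y : Space d => ‖(y - (a i + off N m (f i) k)) -
      (inner ℝ (y - (a i + off N m (f i) k)) (nor (ω i)) : ℝ) • nor (ω i)‖) := by fun_prop
    exact ((isClosed_le g1 continuous_const).inter (isClosed_le g2 continuous_const)).measurableSet
  have hlogN : 0 ≤ Real.log N := Real.log_nonneg hN
  have hM0 : (0 : ℝ) ≤ M := Nat.cast_nonneg M
  have hlogM : 0 ≤ Real.log ((M : ℝ) + 1) := Real.log_nonneg (by linarith)
  have hW : W d M δ ≤ lg ^ (d + 3) * ((M + 1) * (1 + Real.log (M + 1)) ^ 2 *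
      (1 + Real.log N) ^ (d + 3)) := by
    unfold W
    have e1 : 1 + Real.log (1 / δ) ≤ lg * (1 + Real.log N) := by
      have e2 : 1 / δ = 4 / σ * N := by rw [hδ]; field_simp
      rw [e2, Real.log_mul (by positivity) (by positivity), hlg]
      have : 0 ≤ Real.log (4 / σ) := by linarith [hlg, hlg1]
      nlinarith
    have e0 : 0 ≤ 1 + Real.log (1 / δ) := by
      have : 0 ≤ Real.log (1 / δ) := Real.log_nonneg (by rw [le_div_iff₀ hδ0]; linarith)
      linarith
    calc ((M : ℝ) + 1) * (1 + Real.log (M + 1)) ^ 2 * (1 + Real.log (1 / δ)) ^ (d + 3)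
        ≤ ((M : ℝ) + 1) * (1 + Real.log (M + 1)) ^ 2 * (lg * (1 + Real.log N)) ^ (d + 3) := by
          gcongr
      _ = _ := by rw [mul_pow]; ring
  have hW0 : 0 ≤ W d M δ := by
    have := one_le_W (d := d) (N := M) hδ0 hδ1
    linarith
  have hcard := card_caps (by omega) hN hσ hσ1 ω hω hsep
  calc ∫⁻ y, Fb N ω f a y ^ q
      ≤ ∫⁻ y, ENNReal.ofReal (K ^ (q - 1)) * ∑ k, Fk k y ^ q := by
        refine lintegral_mono fun y => ?_
        calc Fb N ω f a y ^ q ≤ (∑ k, Fk k y) ^ q :=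
              ENNReal.rpow_le_rpow (h1 y) (by linarith)
          _ ≤ _ := by
              have h6 := ENNReal.rpow_sum_le_const_mul_sum_rpow (s := Finset.univ)
                (f := fun k => Fk k y) hq1
              refine h6.trans (le_of_eq ?_)
              congr 1
              rw [Finset.card_univ, ← ENNReal.ofReal_natCast,
                ENNReal.ofReal_rpow_of_pos hK0]
    _ = ENNReal.ofReal (K ^ (q - 1)) * ∑ k, ∫⁻ y, Fk k y ^ q := by
        rw [lintegral_const_mul _ (Finset.measurable_fun_sum _ fun k _ => hFkm k),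
          lintegral_finsetSum _ fun k _ => hFkm k]
    _ ≤ ENNReal.ofReal (K ^ (q - 1)) * ∑ _k : Fin d → Fin (m + 1),
          ENNReal.ofReal ((N ^ 2) ^ (d + 1)) * B := by
        gcongr with k _
        exact h2 k
    _ = ENNReal.ofReal (K ^ (q - 1) * (K * ((N ^ 2) ^ (d + 1) *
          ((C * W d M δ) ^ (1 / (d : ℝ)) * (δ ^ d * n))))) := by
        rw [Finset.sum_const, Finset.card_univ, nsmul_eq_mul, hB,
          ← ENNReal.ofReal_mul (by positivity), ← ENNReal.ofReal_natCast,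
          ← ENNReal.ofReal_mul (by positivity), ← ENNReal.ofReal_mul (by positivity)]
    _ ≤ _ := by
        apply ENNReal.ofReal_le_ofReal
        have e1 : δ ^ d * n ≤ (σ / 4) ^ d * (4 * d / σ) ^ d := by
          calc δ ^ d * n ≤ δ ^ d * ((4 * d / σ) ^ d * N ^ d) := by gcongr
            _ = (δ * N) ^ d * (4 * d / σ) ^ d := by rw [mul_pow]; ring
            _ = _ := by
                have : δ * N = σ / 4 := by rw [hδ]; field_simp
                rw [this]
        have e2 : (C * W d M δ) ^ (1 / (d : ℝ)) ≤ (C * lg ^ (d + 3)) ^ (1 / (d : ℝ)) *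
            ((M + 1) * (1 + Real.log (M + 1)) ^ 2 * (1 + Real.log N) ^ (d + 3)) ^ (1 / (d : ℝ)) := by
          rw [← Real.mul_rpow (by positivity) (by positivity)]
          apply Real.rpow_le_rpow (by positivity) _ hp0.le
          calc C * W d M δ ≤ C * (lg ^ (d + 3) * ((M + 1) * (1 + Real.log (M + 1)) ^ 2 *
                (1 + Real.log N) ^ (d + 3))) := by gcongr
            _ = _ := by ring
        calc K ^ (q - 1) * (K * ((N ^ 2) ^ (d + 1) *
              ((C * W d M δ) ^ (1 / (d : ℝ)) * (δ ^ d * n))))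
            ≤ K ^ (q - 1) * (K * ((N ^ 2) ^ (d + 1) *
              (((C * lg ^ (d + 3)) ^ (1 / (d : ℝ)) *
            ((M + 1) * (1 + Real.log (M + 1)) ^ 2 * (1 + Real.log N) ^ (d + 3)) ^ (1 / (d : ℝ))) *
              ((σ / 4) ^ d * (4 * d / σ) ^ d)))) := by gcongr
          _ = _ := by rw [← pow_mul]; ring

end Pool.Agent.V11313.CT
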