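import Pool.Agent.V11313.CT.Dual
import Pool.Agent.Results.MP_5168f5_an.TubesMeetingCurve
set_option autoImplicit false

/-!
# The tube inequality for tubes which meet a curve of finite order
-/

open MeasureTheory Set Metric
open scoped ENNReal NNReal

namespace Pool.Agent.V11313.CT
open Pool.Agent.Y254 (mult mult_meas mult_le mult_ne_top mult_zero_or lint_mult vol_tube Cv Cv_pos)
open Pool.Agent.Y254.EL (sg tube_cover solve_ineq triv_bound card_dirs)
open Pool.Agent.W46.KK (tube_isClosed)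
open Pool.Agent.Results.MP_5168f5_an.TubesMeetingCurve (OrderLE curveMax)

variable {d : ℕ}

/-- The point `z` lies in the tube with centre `a`, direction `e`, length `2 A` and radius `A δ`. -/
def Near (A δ : ℝ) (a e z : EuclideanSpace ℝ (Fin (d + 1))) : Prop :=
  |inner ℝ (z - a) e| ≤ A ∧ ‖(z - a) - (inner ℝ (z - a) e : ℝ) • e‖ ≤ A * δ

/-- The logarithmic factor. -/
noncomputable def W (d N : ℕ) (δ : ℝ) : ℝ :=
  (N + 1) * (1 + Real.log (N + 1)) ^ 2 * (1 + Real.log (1 / δ)) ^ (d + 3)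

theorem one_le_W {N : ℕ} {δ : ℝ} (hδ : 0 < δ) (hδ1 : δ < 1) : 1 ≤ W d N δ := by
  have h1 : 0 ≤ Real.log (1 / δ) := Real.log_nonneg (by rw [le_div_iff₀ hδ]; linarith)
  have hN : (0 : ℝ) ≤ N := Nat.cast_nonneg N
  have h2 : 0 ≤ Real.log ((N : ℝ) + 1) := Real.log_nonneg (by linarith)
  have h3 : (1 : ℝ) ≤ (1 + Real.log ((N : ℝ) + 1)) ^ 2 := one_le_pow₀ (by linarith)
  have h4 : (1 : ℝ) ≤ (1 + Real.log (1 / δ)) ^ (d + 3) := one_le_pow₀ (by linarith)
  unfold W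
  have h5 : (1 : ℝ) ≤ ((N : ℝ) + 1) * (1 + Real.log ((N : ℝ) + 1)) ^ 2 := by nlinarith
  nlinarith

theorem proj_min {w x : EuclideanSpace ℝ (Fin (d + 1))} (hx : ‖x‖ = 1) (s : ℝ) :
    ‖w - (inner ℝ w x : ℝ) • x‖ ≤ ‖w - s • x‖ := by
  have h1 : w - s • x = (w - (inner ℝ w x : ℝ) • x) + ((inner ℝ w x : ℝ) - s) • x := by
    rw [sub_smul]; abel
  have h2 : inner ℝ (w - (inner ℝ w x : ℝ) • x) (((inner ℝ w x : ℝ) - s) • x) = 0 := by
    rw [inner_smul_right, inner_sub_left, inner_smul_left, real_inner_self_eq_norm_sq, hx]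
    simp
  have h3 := norm_add_sq_eq_norm_sq_add_norm_sq_real h2
  rw [← h1] at h3
  nlinarith [norm_nonneg (w - s • x), norm_nonneg (w - (inner ℝ w x : ℝ) • x),
    mul_self_nonneg ‖((inner ℝ w x : ℝ) - s) • x‖]

theorem int_le_curveMax {A δ : ℝ} (hA : 1 ≤ A) (hδ : 0 < δ) (hδ5 : δ ≤ 1 / (5 * A))
    {γ : ℝ → EuclideanSpace ℝ (Fin (d + 1))} {a e' x : EuclideanSpace ℝ (Fin (d + 1))}
    (hx : ‖x‖ = 1) (hee : ‖e' - x‖ ≤ δ / 4) {t : ℝ} (ht : Near A δ a e' (γ t))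
    (f : EuclideanSpace ℝ (Fin (d + 1)) → ℝ) :
    ∫⁻ y in W46.KK.tube δ a e', ‖f y‖ₑ ≤
      ENNReal.ofReal (δ ^ d) * (ENNReal.ofReal (2 * (Cv (d + 1) * 2 * (2 * A) ^ d)) *
        curveMax (2 * A * δ) γ f x) := by
  obtain ⟨κ, hκ, hV⟩ := Pool.Agent.W131.HM.VOL d
  have hCv := Cv_pos (d + 1)
  have hA0 : 0 < A := by linarith
  have hAδ : A * δ ≤ 1 / 5 := by
    rw [le_div_iff₀ (by positivity)] at hδ5
    linarith
  have hδA : δ ≤ A * δ := by nlinarith
  have hδ15 : δ ≤ 1 / 5 := by linarith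
  set δ' : ℝ := 2 * A * δ with hδ'
  have hδ'0 : 0 < δ' := by positivity
  have hδ'1 : δ' < 1 := by rw [hδ']; linarith
  have h2δ : 2 * δ ≤ δ' := by rw [hδ']; linarith
  obtain ⟨ht1, ht2⟩ := ht
  set s : ℝ := inner ℝ (γ t - a) e' with hs
  have hline : ∀ c : ℝ, ‖((a + c • x) - γ t) - (inner ℝ ((a + c • x) - γ t) x : ℝ) • x‖ ≤ δ' := by
    intro c
    refine (proj_min hx (c - s)).trans ?_
    have h1 : ((a + c • x) - γ t) - (c - s) • x =
        -(((γ t - a) - s • e') + s • (e' - x)) := by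
      rw [sub_smul, smul_sub]; abel
    rw [h1, norm_neg]
    refine (norm_add_le _ _).trans ?_
    rw [norm_smul, Real.norm_eq_abs]
    have h5 : |s| * ‖e' - x‖ ≤ A * (δ / 4) := by gcongr
    rw [hδ']
    nlinarith
  have hone : ∀ c : ℝ, ∫⁻ y in W46.KK.tube (2 * δ) (a + c • x) x, ‖f y‖ₑ ≤
      ENNReal.ofReal (Cv (d + 1) * 2 * δ' ^ d) * curveMax δ' γ f x := by
    intro c
    set b : EuclideanSpace ℝ (Fin (d + 1)) := a + c • x with hb
    obtain ⟨h1, h2⟩ := hV b x δ' hx hδ'0 (by linarith)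
    have h3 : volume (W46.KK.tube δ' b x) ≠ 0 := by
      intro h
      rw [h, nonpos_iff_eq_zero, ENNReal.ofReal_eq_zero] at h1
      have : 0 < κ * δ' ^ d := by positivity
      linarith
    have h4 : volume (W46.KK.tube δ' b x) ≤ ENNReal.ofReal (Cv (d + 1) * 2 * δ' ^ d) := by
      have h5 := vol_tube (n := d + 1) (by omega) (a := b) hx (δ := δ') (by positivity)
        (by linarith)
      rw [Nat.add_sub_cancel] at h5
      exact h5
    calc ∫⁻ y in W46.KK.tube (2 * δ) b x, ‖f y‖ₑ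
        ≤ ∫⁻ y in W46.KK.tube δ' b x, ‖f y‖ₑ := by
          apply lintegral_mono_set
          rintro y ⟨hy1, hy2⟩
          exact ⟨hy1, hy2.trans h2δ⟩
      _ = volume (W46.KK.tube δ' b x) * ((volume (W46.KK.tube δ' b x))⁻¹ *
          ∫⁻ y in W46.KK.tube δ' b x, ‖f y‖ₑ) := by
          rw [← mul_assoc, ENNReal.mul_inv_cancel h3 h2, one_mul]
      _ ≤ ENNReal.ofReal (Cv (d + 1) * 2 * δ' ^ d) * curveMax δ' γ f x := by
          gcongr
          exact le_iSup_of_le b (le_iSup_of_le t (le_iSup_of_le (hline c) le_rfl))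
  calc ∫⁻ y in W46.KK.tube δ a e', ‖f y‖ₑ
      ≤ ∫⁻ y in W46.KK.tube (2 * δ) (a + (1 / 4 : ℝ) • x) x ∪
          W46.KK.tube (2 * δ) (a - (1 / 4 : ℝ) • x) x, ‖f y‖ₑ :=
        lintegral_mono_set (tube_cover hδ hδ15 a hx hee)
    _ ≤ (∫⁻ y in W46.KK.tube (2 * δ) (a + (1 / 4 : ℝ) • x) x, ‖f y‖ₑ) +
        ∫⁻ y in W46.KK.tube (2 * δ) (a - (1 / 4 : ℝ) • x) x, ‖f y‖ₑ := lintegral_union_le _ _ _
    _ ≤ ENNReal.ofReal (Cv (d + 1) * 2 * δ' ^ d) * curveMax δ' γ f x +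
        ENNReal.ofReal (Cv (d + 1) * 2 * δ' ^ d) * curveMax δ' γ f x := by
        refine add_le_add (hone _) ?_
        have := hone (-(1 / 4))
        rwa [neg_smul, ← sub_eq_add_neg] at this
    _ = _ := by
        rw [← two_mul, ← mul_assoc, ← mul_assoc, ← ENNReal.ofReal_mul (by positivity)]
        congr 1
        have e1 : (2 : ℝ≥0∞) = ENNReal.ofReal 2 := by simp
        rw [e1, ← ENNReal.ofReal_mul (by norm_num)]
        congr 1
        rw [hδ', mul_pow]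
        ring

theorem curve_small (hd : 2 ≤ d) {A : ℝ} (hA : 1 ≤ A) : ∃ C' : ℝ, 0 < C' ∧
    ∀ (N : ℕ) (γ : ℝ → EuclideanSpace ℝ (Fin (d + 1))), Continuous γ → OrderLE N γ →
    ∀ δ : ℝ, 0 < δ → δ ≤ 1 / (5 * A) → ∀ (ι : Type) [Fintype ι]
    (a e : ι → EuclideanSpace ℝ (Fin (d + 1))), (∀ i, ‖e i‖ = 1) →
    (∀ i j, i ≠ j → δ ≤ ‖e i - e j‖) → (∀ i, ∃ t, Near A δ (a i) (e i) (γ t)) →
    ∫⁻ x, mult (fun i => W46.KK.tube δ (a i) (e i)) x ^ (1 + 1 / (d : ℝ)) ≤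
      ENNReal.ofReal ((C' * W d N δ) ^ (1 / (d : ℝ)) * (δ ^ d * (Fintype.card ι : ℝ))) := by
  have hd0 : (0 : ℝ) < d := by
    have : 0 < d := by omega
    exact_mod_cast this
  have hp0 : 0 < 1 / (d : ℝ) := by positivity
  have hCv := Cv_pos (d + 1)
  have hA0 : 0 < A := by linarith
  obtain ⟨K, hK, hdual⟩ := dual_gen (d := d) (by omega)
  obtain ⟨C, hC, hmain⟩ := Pool.Agent.Results.MP_5168f5_an.TubesMeetingCurve.main d hd
  set p : ℝ := (d : ℝ) + 1 with hp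
  have hpp : 1 < p := by linarith
  have hp00 : 0 < p := by linarith
  have h1p : 0 ≤ 1 - 1 / p := by
    rw [sub_nonneg, div_le_one hp00]
    exact hpp.le
  set V : ℝ := 2 * (Cv (d + 1) * 2 * (2 * A) ^ d) with hV
  have hV0 : 0 < V := by positivity
  refine ⟨(K * V) ^ p * C, by positivity, ?_⟩
  intro N γ hγ hN δ hδ hδ5 ι _ a e he hsep hnear
  have hAδ : A * δ ≤ 1 / 5 := by
    rw [le_div_iff₀ (by positivity)] at hδ5
    linarith
  have hδA : δ ≤ A * δ := by nlinarith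
  have hδ15 : δ ≤ 1 / 5 := by linarith
  have hδ1 : δ < 1 := by linarith
  have hW := one_le_W (d := d) (N := N) hδ hδ1
  set T : ι → Set (EuclideanSpace ℝ (Fin (d + 1))) := fun i => W46.KK.tube δ (a i) (e i) with hT
  have hTm : ∀ i, MeasurableSet (T i) := fun i => (W46.KK.tube_isClosed _ _ _).measurableSet
  set g : EuclideanSpace ℝ (Fin (d + 1)) → ℝ≥0∞ := fun x => mult T x ^ (1 / (d : ℝ)) with hg
  have hgm : Measurable g := (mult_meas hTm).pow_const _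
  have hgt : ∀ x, g x ≠ ∞ := fun x => ENNReal.rpow_ne_top_of_nonneg hp0.le (mult_ne_top T x)
  set f : EuclideanSpace ℝ (Fin (d + 1)) → ℝ := fun x => (g x).toReal with hf
  have hfm : Measurable f := hgm.ennreal_toReal
  have hfg : ∀ x, ‖f x‖ₑ = g x := by
    intro x
    rw [hf, Real.enorm_of_nonneg ENNReal.toReal_nonneg, ENNReal.ofReal_toReal (hgt x)]
  set I : ℝ≥0∞ := ∫⁻ x, mult T x ^ (1 + 1 / (d : ℝ)) with hI
  have hIt : I ≠ ∞ := by
    refine ne_top_of_le_ne_top ENNReal.ofReal_ne_top (triv_bound (q := 1 + 1 / (d : ℝ))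
      (by linarith) hδ hδ1 a e he)
  have hIg : ∫⁻ y, ‖f y‖ₑ ^ (d + 1) = I := by
    rw [hI]
    refine lintegral_congr fun x => ?_
    rw [hfg, hg, ← ENNReal.rpow_natCast, ← ENNReal.rpow_mul]
    congr 1
    push_cast
    field_simp
  have hIm : I = ∫⁻ y, g y * mult T y := by
    rw [hI]
    refine lintegral_congr fun x => ?_
    rw [add_comm (1 : ℝ) (1 / (d : ℝ)), ENNReal.rpow_add_of_nonneg _ _ hp0.le zero_le_one,
      ENNReal.rpow_one]
  set M : sphere (0 : EuclideanSpace ℝ (Fin (d + 1))) 1 → ℝ≥0∞ := fun x =>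
    ENNReal.ofReal V * curveMax (2 * A * δ) γ f x with hM
  have h1 := hdual δ hδ hδ15 ι a e he hsep g hgm M (by
    intro i x hx
    obtain ⟨t, ht⟩ := hnear i
    have h2 := int_le_curveMax hA hδ hδ5 (γ := γ) (a := a i) (e' := e i)
      (x := (x : EuclideanSpace ℝ (Fin (d + 1)))) (by simp) hx ht f
    simp only [hfg] at h2
    exact h2)
  have hδ'0 : 0 < 2 * A * δ := by positivity
  have hδ'1 : 2 * A * δ < 1 := by linarith
  have h2 := hmain N γ (2 * A * δ) f hγ hN hδ'0 hδ'1 hfm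
  have hlog : Real.log (1 / (2 * A * δ)) ≤ Real.log (1 / δ) := by
    apply Real.log_le_log (by positivity)
    apply one_div_le_one_div_of_le hδ
    linarith
  have hlog0 : 0 ≤ Real.log (1 / (2 * A * δ)) :=
    Real.log_nonneg (by rw [le_div_iff₀ hδ'0]; linarith)
  have hlogN : 0 ≤ Real.log ((N : ℝ) + 1) := Real.log_nonneg (by
    have : (0 : ℝ) ≤ N := Nat.cast_nonneg N
    linarith)
  have hMint : ∫⁻ x, M x ^ p ∂(sg d) ≤ ENNReal.ofReal (V ^ p * (C * W d N δ)) * I := by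
    have e1 : ∀ x, M x ^ p = ENNReal.ofReal (V ^ p) * curveMax (2 * A * δ) γ f x ^ (d + 1) := by
      intro x
      rw [hM]
      dsimp only
      rw [ENNReal.mul_rpow_of_nonneg _ _ hp00.le, ENNReal.ofReal_rpow_of_pos hV0, hp]
      congr 1
      rw [← ENNReal.rpow_natCast]
      congr 1
      push_cast
      ring
    simp only [e1]
    have e3 : ENNReal.ofReal (V ^ p * (C * W d N δ)) * I =
        ENNReal.ofReal (V ^ p) * (ENNReal.ofReal (C * W d N δ) * I) := by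
      rw [ENNReal.ofReal_mul (by positivity), mul_assoc]
    rw [lintegral_const_mul' _ _ ENNReal.ofReal_ne_top, e3]
    refine mul_le_mul_right ?_ _
    refine h2.trans ?_
    rw [hIg]
    gcongr ?_ * _
    apply ENNReal.ofReal_le_ofReal
    unfold W
    calc C * (↑N + 1) * (1 + Real.log (↑N + 1)) ^ 2 * (1 + Real.log (1 / (2 * A * δ))) ^ (d + 3)
        ≤ C * (↑N + 1) * (1 + Real.log (↑N + 1)) ^ 2 * (1 + Real.log (1 / δ)) ^ (d + 3) := by
          gcongr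
      _ = _ := by ring
  obtain ⟨J, hJ0, hJ⟩ : ∃ J : ℝ, 0 ≤ J ∧ I = ENNReal.ofReal J :=
    ⟨I.toReal, ENNReal.toReal_nonneg, (ENNReal.ofReal_toReal hIt).symm⟩
  have hWpos : 0 < W d N δ := by linarith
  have h3 : I ≤ ENNReal.ofReal K * ((ENNReal.ofReal (V ^ p * (C * W d N δ)) * I) ^ (1 / p) *
      ENNReal.ofReal ((Fintype.card ι : ℝ) * δ ^ d) ^ (1 - 1 / p)) := by
    rw [hIm] at hMint ⊢
    refine h1.trans ?_
    gcongr
  rw [hJ, ← ENNReal.ofReal_mul (by positivity),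
    ENNReal.ofReal_rpow_of_nonneg (by positivity) (by positivity),
    ENNReal.ofReal_rpow_of_nonneg (by positivity) h1p, ← ENNReal.ofReal_mul (by positivity),
    ← ENNReal.ofReal_mul (by positivity), ENNReal.ofReal_le_ofReal_iff (by positivity)] at h3
  have h4 : J ≤ (K * V) * (C * W d N δ) ^ (1 / p) * J ^ (1 / p) *
      ((Fintype.card ι : ℝ) * δ ^ d) ^ (1 - 1 / p) := by
    refine h3.trans (le_of_eq ?_)
    rw [Real.mul_rpow (by positivity) hJ0, Real.mul_rpow (by positivity) (by positivity),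
      ← Real.rpow_mul hV0.le, mul_one_div_cancel hp00.ne', Real.rpow_one]
    ring
  have h5 := solve_ineq hJ0 (by positivity) (by positivity) (by positivity) hp hd0 h4
  rw [hJ]
  apply ENNReal.ofReal_le_ofReal
  refine h5.trans (le_of_eq ?_)
  have e1 : (K * V) ^ (p / (d : ℝ)) = ((K * V) ^ p) ^ (1 / (d : ℝ)) := by
    rw [← Real.rpow_mul (by positivity)]
    congr 1
    ring
  rw [e1, ← Real.mul_rpow (by positivity) (by positivity)]
  have e2 : (K * V) ^ p * (C * W d N δ) = (K * V) ^ p * C * W d N δ := by ring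
  rw [e2]
  ring

/-- The inequality at the end of the range. -/
theorem curve_end (hd : 2 ≤ d) {A : ℝ} (hA : 1 ≤ A) : ∃ C' : ℝ, 0 < C' ∧
    ∀ (N : ℕ) (γ : ℝ → EuclideanSpace ℝ (Fin (d + 1))), Continuous γ → OrderLE N γ →
    ∀ δ : ℝ, 0 < δ → δ < 1 → ∀ (ι : Type) [Fintype ι]
    (a e : ι → EuclideanSpace ℝ (Fin (d + 1))), (∀ i, ‖e i‖ = 1) →
    (∀ i j, i ≠ j → δ ≤ ‖e i - e j‖) → (∀ i, ∃ t, Near A δ (a i) (e i) (γ t)) →
    ∫⁻ x, mult (fun i => W46.KK.tube δ (a i) (e i)) x ^ (1 + 1 / (d : ℝ)) ≤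
      ENNReal.ofReal ((C' * W d N δ) ^ (1 / (d : ℝ)) * (δ ^ d * (Fintype.card ι : ℝ))) := by
  have hd0 : (0 : ℝ) < d := by
    have : 0 < d := by omega
    exact_mod_cast this
  have hp0 : 0 < 1 / (d : ℝ) := by positivity
  have hCv := Cv_pos (d + 1)
  have hA0 : 0 < A := by linarith
  obtain ⟨C1, hC1, h⟩ := curve_small hd hA
  set K : ℝ := (20 * A * ((d : ℝ) + 1)) ^ (d + 1) with hKd
  have hK0 : 0 < K := by positivity
  set C2 : ℝ := K * (Cv (d + 1) * 2) ^ (d : ℝ) with hC2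
  have hC20 : 0 < C2 := by positivity
  refine ⟨C1 + C2, by positivity, ?_⟩
  intro N γ hγ hN δ hδ hδ1 ι _ a e he hsep hnear
  have hW := one_le_W (d := d) (N := N) hδ hδ1
  have hW0 : 0 < W d N δ := by linarith
  rcases le_or_gt δ (1 / (5 * A)) with h5 | h5
  · refine (h N γ hγ hN δ hδ h5 ι a e he hsep hnear).trans (ENNReal.ofReal_le_ofReal ?_)
    gcongr
    linarith
  · refine (triv_bound (q := 1 + 1 / (d : ℝ)) (by linarith) hδ hδ1 a e he).trans
      (ENNReal.ofReal_le_ofReal ?_)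
    have hcard := card_dirs hδ hδ1 e he hsep
    have hcK : (Fintype.card ι : ℝ) ≤ K := by
      refine hcard.trans ?_
      rw [hKd]
      gcongr
      rw [div_le_iff₀ hδ]
      rw [div_lt_iff₀ (by positivity)] at h5
      nlinarith
    have e1 : 1 + 1 / (d : ℝ) - 1 = 1 / d := by ring
    rw [e1]
    have h1 : (Fintype.card ι : ℝ) ^ (1 / (d : ℝ)) ≤ K ^ (1 / (d : ℝ)) := by gcongr
    have h2 : 0 ≤ δ ^ d * (Fintype.card ι : ℝ) := by positivity
    have h3 : K ^ (1 / (d : ℝ)) * (Cv (d + 1) * 2) = C2 ^ (1 / (d : ℝ)) := by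
      rw [hC2, Real.mul_rpow hK0.le (by positivity), ← Real.rpow_mul (by positivity),
        mul_one_div_cancel hd0.ne', Real.rpow_one]
    calc (Fintype.card ι : ℝ) ^ (1 / (d : ℝ)) *
          ((Fintype.card ι : ℝ) * (Cv (d + 1) * 2 * δ ^ d))
        ≤ K ^ (1 / (d : ℝ)) * ((Fintype.card ι : ℝ) * (Cv (d + 1) * 2 * δ ^ d)) := by gcongr
      _ = (K ^ (1 / (d : ℝ)) * (Cv (d + 1) * 2)) * (δ ^ d * (Fintype.card ι : ℝ)) := by ring
      _ = C2 ^ (1 / (d : ℝ)) * (δ ^ d * (Fintype.card ι : ℝ)) := by rw [h3]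
      _ ≤ ((C1 + C2) * W d N δ) ^ (1 / (d : ℝ)) * (δ ^ d * (Fintype.card ι : ℝ)) := by
          gcongr
          nlinarith

/-- The inequality for all exponents. -/
theorem curve_all (hd : 2 ≤ d) {A : ℝ} (hA : 1 ≤ A) : ∃ C' : ℝ, 0 < C' ∧
    ∀ (N : ℕ) (γ : ℝ → EuclideanSpace ℝ (Fin (d + 1))), Continuous γ → OrderLE N γ →
    ∀ δ : ℝ, 0 < δ → δ < 1 → ∀ (ι : Type) [Fintype ι]
    (a e : ι → EuclideanSpace ℝ (Fin (d + 1))), (∀ i, ‖e i‖ = 1) →
    (∀ i j, i ≠ j → δ ≤ ‖e i - e j‖) → (∀ i, ∃ t, Near A δ (a i) (e i) (γ t)) →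
    ∀ q : ℝ, 1 + 1 / (d : ℝ) ≤ q →
    ∫⁻ x, mult (fun i => W46.KK.tube δ (a i) (e i)) x ^ q ≤
      ENNReal.ofReal ((C' * W d N δ) ^ (1 / (d : ℝ)) *
        (δ ^ d * (Fintype.card ι : ℝ) ^ (q - 1 / (d : ℝ)))) := by
  have hd0 : (0 : ℝ) < d := by
    have : 0 < d := by omega
    exact_mod_cast this
  have hp0 : 0 < 1 / (d : ℝ) := by positivity
  obtain ⟨C', hC', h⟩ := curve_end hd hA
  refine ⟨C', hC', ?_⟩
  intro N γ hγ hN δ hδ hδ1 ι _ a e he hsep hnear q hq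
  have hW := one_le_W (d := d) (N := N) hδ hδ1
  have hW0 : 0 < W d N δ := by linarith
  have h1 := h N γ hγ hN δ hδ hδ1 ι a e he hsep hnear
  set T : ι → Set (EuclideanSpace ℝ (Fin (d + 1))) := fun i => W46.KK.tube δ (a i) (e i) with hT
  have hTm : ∀ i, MeasurableSet (T i) := fun i => (W46.KK.tube_isClosed _ _ _).measurableSet
  rcases isEmpty_or_nonempty ι with hemp | hne
  · have h1 : ∀ x, mult T x ^ q = 0 := by
      intro x
      unfold mult
      rw [Finset.univ_eq_empty, Finset.sum_empty, ENNReal.zero_rpow_of_pos (by linarith)]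
    simp only [h1, lintegral_zero]
    exact zero_le
  have hN1 : (0 : ℝ) < Fintype.card ι := by exact_mod_cast Fintype.card_pos
  have h2 : ∀ x, mult T x ^ q ≤ ENNReal.ofReal ((Fintype.card ι : ℝ) ^ (q - (1 + 1 / (d : ℝ)))) *
      mult T x ^ (1 + 1 / (d : ℝ)) := by
    intro x
    have e1 : mult T x ^ q = mult T x ^ (q - (1 + 1 / (d : ℝ))) * mult T x ^ (1 + 1 / (d : ℝ)) := by
      rw [← ENNReal.rpow_add_of_nonneg _ _ (by linarith) (by positivity)]
      congr 1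
      ring
    rw [e1]
    gcongr
    rw [← ENNReal.ofReal_rpow_of_nonneg (by positivity) (by linarith), ENNReal.ofReal_natCast]
    exact ENNReal.rpow_le_rpow (mult_le T x) (by linarith)
  refine (lintegral_mono h2).trans ?_
  rw [lintegral_const_mul _ ((mult_meas hTm).pow_const _)]
  refine (mul_le_mul_right h1 _).trans ?_
  rw [← ENNReal.ofReal_mul (by positivity)]
  apply ENNReal.ofReal_le_ofReal
  have e2 : (Fintype.card ι : ℝ) ^ (q - 1 / (d : ℝ)) =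
      (Fintype.card ι : ℝ) ^ (q - (1 + 1 / (d : ℝ))) * (Fintype.card ι : ℝ) := by
    nth_rewrite 3 [← Real.rpow_one (Fintype.card ι : ℝ)]
    rw [← Real.rpow_add hN1]
    congr 1
    ring
  rw [e2]
  apply le_of_eq
  ring

end Pool.Agent.V11313.CT
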