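import Pool.Agent.Y254.EL.Dual2
set_option autoImplicit false

/-!
# Duality between maximal estimates and tube estimates, for single families of tubes

The argument of `Pool.Agent.Y254.EL.dual_small`, for one family of tubes, one test function and any
function `M` on the sphere which dominates the integrals over the tubes in the nearby directions.
-/

open MeasureTheory Set Metric
open scoped ENNReal NNReal

namespace Pool.Agent.V11313.CT
open Pool.Agent.Y254 (mult mult_meas mult_le mult_ne_top mult_zero_or lint_mult vol_tube Cv Cv_pos)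
open Pool.Agent.Y254.EL (sg cap_lower holder_set)
open Pool.Agent.W46.KK (tube_isClosed)

variable {d : ℕ}

/-- Duality for one family of tubes and one test function. -/
theorem dual_gen (hd : 1 ≤ d) : ∃ K : ℝ, 0 < K ∧ ∀ δ : ℝ, 0 < δ → δ ≤ 1 / 5 →
    ∀ (ι : Type) [Fintype ι] (a e : ι → EuclideanSpace ℝ (Fin (d + 1))), (∀ i, ‖e i‖ = 1) →
    (∀ i j, i ≠ j → δ ≤ ‖e i - e j‖) →
    ∀ g : EuclideanSpace ℝ (Fin (d + 1)) → ℝ≥0∞, Measurable g →
    ∀ M : sphere (0 : EuclideanSpace ℝ (Fin (d + 1))) 1 → ℝ≥0∞,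
    (∀ i, ∀ x : sphere (0 : EuclideanSpace ℝ (Fin (d + 1))) 1,
      ‖e i - (x : EuclideanSpace ℝ (Fin (d + 1)))‖ ≤ δ / 4 →
      ∫⁻ y in W46.KK.tube δ (a i) (e i), g y ≤ ENNReal.ofReal (δ ^ d) * M x) →
    ∫⁻ y, g y * mult (fun i => W46.KK.tube δ (a i) (e i)) y ≤
      ENNReal.ofReal K * ((∫⁻ x, M x ^ ((d : ℝ) + 1) ∂(sg d)) ^ (1 / ((d : ℝ) + 1)) *
        ENNReal.ofReal ((Fintype.card ι : ℝ) * δ ^ d) ^ (1 - 1 / ((d : ℝ) + 1))) := by
  classical
  obtain ⟨κ, hκ, hcl⟩ := cap_lower d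
  obtain ⟨C1, hC1, hcu⟩ := Pool.Agent.W131.HM.CAP d
  have hd0 : (0 : ℝ) < d := by exact_mod_cast hd
  set p : ℝ := (d : ℝ) + 1 with hp
  have hpp : 1 < p := by linarith
  have hp00 : 0 < p := by linarith
  have h1p : 0 ≤ 1 - 1 / p := by
    rw [sub_nonneg, div_le_one hp00]
    exact hpp.le
  refine ⟨4 ^ d / κ * C1 ^ (1 - 1 / p), by positivity, ?_⟩
  intro δ hδ hδ5 ι _ a e he hsep g hgm M hM
  have hδ1 : δ < 1 := by linarith
  set T : ι → Set (EuclideanSpace ℝ (Fin (d + 1))) := fun i => W46.KK.tube δ (a i) (e i) with hT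
  have hTm : ∀ i, MeasurableSet (T i) := fun i => (W46.KK.tube_isClosed _ _ _).measurableSet
  set I : ℝ≥0∞ := ∫⁻ y, g y * mult T y with hI
  have hsum : I = ∑ i, ∫⁻ y in T i, g y := by
    have e1 : ∀ x, g x * mult T x = ∑ i, (T i).indicator g x := by
      intro x
      rw [show mult T x = ∑ i, (T i).indicator 1 x from rfl, Finset.mul_sum]
      refine Finset.sum_congr rfl fun i _ => ?_
      by_cases hx : x ∈ T i
      · rw [indicator_of_mem hx, indicator_of_mem hx, Pi.one_apply, mul_one]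
      · rw [indicator_of_notMem hx, indicator_of_notMem hx, mul_zero]
    rw [hI, lintegral_congr e1, lintegral_finsetSum _ fun i _ => hgm.indicator (hTm i)]
    refine Finset.sum_congr rfl fun i _ => ?_
    rw [lintegral_indicator (hTm i)]
  set c : ι → Set (sphere (0 : EuclideanSpace ℝ (Fin (d + 1))) 1) := fun i =>
    closedBall ⟨e i, by rw [mem_sphere_zero_iff_norm]; exact he i⟩ (δ / 4) with hc
  have hcm : ∀ i, MeasurableSet (c i) := fun i => isClosed_closedBall.measurableSet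
  have hcdist : ∀ i, ∀ x ∈ c i, ‖e i - (x : EuclideanSpace ℝ (Fin (d + 1)))‖ ≤ δ / 4 := by
    intro i x hx
    rw [hc, mem_closedBall, Subtype.dist_eq, dist_eq_norm, norm_sub_rev] at hx
    exact hx
  have hdis : ((Finset.univ : Finset ι) : Set ι).PairwiseDisjoint c := by
    intro i _ j _ hij
    rw [Function.onFun, Set.disjoint_left]
    intro x hxi hxj
    have h1 := hcdist i x hxi
    have h2 := hcdist j x hxj
    have h3 := hsep i j hij
    have h4 : e i - e j = (e i - x) - (e j - x) := by abel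
    rw [h4] at h3
    have := norm_sub_le (e i - (x : EuclideanSpace ℝ (Fin (d + 1)))) (e j - x)
    linarith
  have hstep : ∀ i, ENNReal.ofReal (κ * (δ / 4) ^ d) * ∫⁻ y in T i, g y ≤
      ENNReal.ofReal (δ ^ d) * ∫⁻ x in c i, M x ∂(sg d) := by
    intro i
    calc ENNReal.ofReal (κ * (δ / 4) ^ d) * ∫⁻ y in T i, g y
        ≤ sg d (c i) * ∫⁻ y in T i, g y := by
          gcongr
          exact hcl _ _ (by positivity) (by linarith)
      _ = ∫⁻ _x in c i, (∫⁻ y in T i, g y) ∂(sg d) := by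
          rw [setLIntegral_const, mul_comm]
      _ ≤ ∫⁻ x in c i, ENNReal.ofReal (δ ^ d) * M x ∂(sg d) := by
          apply setLIntegral_mono' (hcm i)
          intro x hx
          exact hM i x (hcdist i x hx)
      _ = _ := by
          rw [lintegral_const_mul' _ _ ENNReal.ofReal_ne_top]
  have htot : ENNReal.ofReal (κ * (δ / 4) ^ d) * I ≤
      ENNReal.ofReal (δ ^ d) * ∫⁻ x in ⋃ i ∈ (Finset.univ : Finset ι), c i, M x ∂(sg d) := by
    rw [lintegral_biUnion_finset hdis fun i _ => hcm i, hsum, Finset.mul_sum, Finset.mul_sum]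
    exact Finset.sum_le_sum fun i _ => hstep i
  have hcapU : sg d (⋃ i ∈ (Finset.univ : Finset ι), c i) ≤
      ENNReal.ofReal (C1 * ((Fintype.card ι : ℝ) * δ ^ d)) := by
    refine (measure_biUnion_finset_le _ _).trans ?_
    calc ∑ i : ι, sg d (c i) ≤ ∑ _i : ι, ENNReal.ofReal (C1 * (δ / 4) ^ d) :=
          Finset.sum_le_sum fun i _ => hcu _ _ (by positivity) (by linarith)
      _ = ENNReal.ofReal ((Fintype.card ι : ℝ) * (C1 * (δ / 4) ^ d)) := by
          rw [Finset.sum_const, Finset.card_univ, nsmul_eq_mul, ← ENNReal.ofReal_natCast,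
            ← ENNReal.ofReal_mul (by positivity)]
      _ ≤ _ := by
          apply ENNReal.ofReal_le_ofReal
          have : (δ / 4) ^ d ≤ δ ^ d := by
            gcongr
            linarith
          calc (Fintype.card ι : ℝ) * (C1 * (δ / 4) ^ d) ≤ (Fintype.card ι : ℝ) * (C1 * δ ^ d) := by
                gcongr
            _ = _ := by ring
  set Q : ℝ≥0∞ := (∫⁻ x, M x ^ p ∂(sg d)) ^ (1 / p) with hQ
  set n : ℝ := (Fintype.card ι : ℝ) * δ ^ d with hn
  have hn0 : 0 ≤ n := by positivity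
  have hmain : ENNReal.ofReal (κ * (δ / 4) ^ d) * I ≤ ENNReal.ofReal (δ ^ d) *
      (Q * ENNReal.ofReal (C1 * n) ^ (1 - 1 / p)) := by
    refine htot.trans ?_
    gcongr
    refine (holder_set (sg d) _ _ hpp).trans ?_
    gcongr
  have hδd : 0 < δ ^ d := by positivity
  have hc0 : 0 < κ * (δ / 4) ^ d := by positivity
  have e1 : ENNReal.ofReal (δ ^ d) * (Q * ENNReal.ofReal (C1 * n) ^ (1 - 1 / p)) =
      ENNReal.ofReal (κ * (δ / 4) ^ d) * (ENNReal.ofReal (4 ^ d / κ * C1 ^ (1 - 1 / p)) *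
        (Q * ENNReal.ofReal n ^ (1 - 1 / p))) := by
    rw [ENNReal.ofReal_mul hC1.le, ENNReal.mul_rpow_of_nonneg _ _ h1p,
      ENNReal.ofReal_mul (by positivity : (0:ℝ) ≤ 4 ^ d / κ),
      ENNReal.ofReal_rpow_of_pos hC1 (p := 1 - 1 / p)]
    have e2 : δ ^ d = κ * (δ / 4) ^ d * (4 ^ d / κ) := by
      rw [div_pow]; field_simp
    rw [e2, ENNReal.ofReal_mul hc0.le]
    ring
  rw [e1] at hmain
  exact (ENNReal.mul_le_mul_iff_right (by
    rw [Ne, ENNReal.ofReal_eq_zero, not_le]; exact hc0) ENNReal.ofReal_ne_top).1 hmain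

end Pool.Agent.V11313.CT
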